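import Pool.Agent.Q292.Eternal.LollyChk

set_option autoImplicit false

/-!
# MP_16080b_co: Bob may need four rounds in the eternal vertex colouring game

For the graph consisting of a triangle with a pendant path of length two, the eternal game
chromatic number is `5`, and Bob needs exactly four rounds to win with four colours.
-/

namespace Pool.Agent.Results.MP_16080b_co.FourRounds

open Pool.Agent.Q292.Eternal

/-- The graph with the vertices `0, 1, 2, 3, 4` consisting of the triangle `1 2 4` and the path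
`4 3 0`. -/
def L : SimpleGraph (Fin 5) :=
  SimpleGraph.fromEdgeSet {s(1, 2), s(2, 4), s(1, 4), s(4, 3), s(3, 0)}

lemma adj_iff : ∀ v w, L.Adj v w ↔ w ∈ Lolly.nb v := by
  intro v w
  unfold L
  rw [SimpleGraph.fromEdgeSet_adj]
  fin_cases v <;> fin_cases w <;> simp [Lolly.nb]

lemma exists_adm {k : ℕ} (l : List (Option (Fin k))) (h : l.length < k) :
    ∃ d : Fin k, some d ∉ l := by
  by_contra hcon
  push Not at hcon
  have h1 : ((List.finRange k).map some) ⊆ l := by
    intro o ho
    obtain ⟨d, _, rfl⟩ := List.mem_map.mp ho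
    exact hcon d
  have h2 : ((List.finRange k).map some).Nodup :=
    (List.nodup_finRange k).map (Option.some_injective _)
  have h3 := (h2.subperm h1).length_le
  rw [List.length_map, List.length_finRange] at h3
  omega

lemma nb_length : ∀ v, (Lolly.nb v).length ≤ 3 := by decide

lemma alice5 : AliceWins L 5 := by
  have hadm : ∀ (p : Pos (Fin 5) 5) (v : Fin 5), ∃ d, Adm L p v d := by
    intro p v
    obtain ⟨d, hd⟩ := exists_adm (p.col v :: (Lolly.nb v).map p.col) (by
      rw [List.length_cons, List.length_map]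
      have := nb_length v
      omega)
    rw [List.mem_cons, not_or] at hd
    refine ⟨d, fun h => hd.1 h.symm, fun w hw h => hd.2 ?_⟩
    rw [← h]
    exact List.mem_map_of_mem ((adj_iff v w).mp hw)
  have hnext : ∀ (p : Pos (Fin 5) 5) (v : Fin 5) (d : Fin 5), ∃ w, (next p v d).chosen w = false := by
    intro p v d
    by_cases hall : ∀ w, w ≠ v → p.chosen w = true
    · exact ⟨v, by simp only [next, if_pos hall]⟩
    · have hall' := hall
      push Not at hall
      obtain ⟨w, hw, hw2⟩ := hall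
      refine ⟨w, ?_⟩
      simp only [next, if_neg hall', Function.update_apply, if_neg hw]
      simpa using hw2
  refine ⟨{p | ∃ v, p.chosen v = false}, ⟨0, rfl⟩, fun p hp => ⟨fun _ => ?_, fun _ v _ => ?_⟩⟩
  · obtain ⟨v, hv⟩ := hp
    obtain ⟨d, hd⟩ := hadm p v
    exact ⟨v, hv, d, hd, hnext p v d⟩
  · exact ⟨hadm p v, fun d _ => hnext p v d⟩

lemma ok_of {k TA TB : ℕ} (h : ∀ c0 c3, ∃ l0 l3, c0 ∈ l0 ∧ c3 ∈ l3 ∧
    Lolly.chk k TA TB l0 l3 = true) (p : Pos (Fin 5) k) (hp : Cons L p) :
    okB Lolly.nb vs5 (List.finRange k) (rankT TA TB) p = true := by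
  apply ok_of_chk L _ _ _ _ p hp
  obtain ⟨l0, l3, h0, h3, h4⟩ := h (p.col 0) (p.col 3)
  have e : ∀ v w, w ∈ Lolly.nb v → clash (p.col v) (p.col w) = false :=
    fun v w hw => hp.1 v w ((adj_iff v w).mpr hw)
  unfold Lolly.chk at h4
  rw [List.all_eq_true] at h4
  have h5 := h4 _ h0
  rw [List.all_eq_true] at h5
  have h6 := h5 _ h3
  rw [e 0 3 (by decide), Bool.false_or, List.all_eq_true] at h6
  have h7 := h6 _ (mem_opts (p.col 4))
  rw [e 3 4 (by decide), Bool.false_or, List.all_eq_true] at h7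
  have h8 := h7 _ (mem_opts (p.col 1))
  rw [e 1 4 (by decide), Bool.false_or, List.all_eq_true] at h8
  have h9 := h8 _ (mem_opts (p.col 2))
  rw [e 1 2 (by decide), e 2 4 (by decide), Bool.false_or, Bool.false_or] at h9
  exact h9

lemma ok1 (p : Pos (Fin 5) 1) (hp : Cons L p) :
    okB Lolly.nb vs5 (List.finRange 1) (rankT Lolly.TA1 Lolly.TB1) p = true :=
  ok_of (fun c0 c3 => ⟨_, _, mem_opts c0, mem_opts c3, Lolly.t1⟩) p hp

lemma ok2 (p : Pos (Fin 5) 2) (hp : Cons L p) :
    okB Lolly.nb vs5 (List.finRange 2) (rankT Lolly.TA2 Lolly.TB2) p = true :=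
  ok_of (fun c0 c3 => ⟨_, _, mem_opts c0, mem_opts c3, Lolly.t2⟩) p hp

lemma ok3 (p : Pos (Fin 5) 3) (hp : Cons L p) :
    okB Lolly.nb vs5 (List.finRange 3) (rankT Lolly.TA3 Lolly.TB3) p = true :=
  ok_of (fun c0 c3 => ⟨_, _, mem_opts c0, mem_opts c3, Lolly.t3⟩) p hp

lemma ok4 (p : Pos (Fin 5) 4) (hp : Cons L p) :
    okB Lolly.nb vs5 (List.finRange 4) (rankT Lolly.TA4 Lolly.TB4) p = true := by
  refine ok_of (fun c0 c3 => ?_) p hp
  match c0 with
  | none => exact ⟨_, _, by simp, mem_opts c3, Lolly.t4a⟩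
  | some 0 => exact ⟨_, _, by simp, mem_opts c3, Lolly.t4b⟩
  | some 1 => exact ⟨_, _, by simp, mem_opts c3, Lolly.t4c⟩
  | some 2 => exact ⟨_, _, by simp, mem_opts c3, Lolly.t4d⟩
  | some 3 => exact ⟨_, _, by simp, mem_opts c3, Lolly.t4e⟩

lemma rank1 : rankT Lolly.TA1 Lolly.TB1 (start (Fin 5) 1) = 2 := by decide +kernel
lemma rank2 : rankT Lolly.TA2 Lolly.TB2 (start (Fin 5) 2) = 4 := by decide +kernel
lemma rank3 : rankT Lolly.TA3 Lolly.TB3 (start (Fin 5) 3) = 6 := by decide +kernel
lemma rank4 : rankT Lolly.TA4 Lolly.TB4 (start (Fin 5) 4) = 16 := by decide +kernel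

lemma bob_of {k TA TB : ℕ}
    (hok : ∀ p : Pos (Fin 5) k, Cons L p →
      okB Lolly.nb vs5 (List.finRange k) (rankT TA TB) p = true) (N : ℕ) (hN : N < 31)
    (hr : rankT TA TB (start (Fin 5) k) ≤ N) : BobWinsIn L N (start (Fin 5) k) :=
  upper Lolly.nb L adj_iff vs5 mem_vs5 (List.finRange k) List.mem_finRange (rankT TA TB) (Cons L)
    (fun p hp v hv d hd => cons_next L p hp v hv d hd) hok N _ (cons_start L) hr hN

lemma not_alice (k : ℕ) (hk : k < 5) : ¬ AliceWins L k := by
  match k, hk with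
  | 0, _ =>
    rintro ⟨W, h0, hW⟩
    obtain ⟨_, _, d, _⟩ := (hW _ h0).1 rfl
    exact d.elim0
  | 1, _ => exact not_aliceWins L (bob_of ok1 2 (by norm_num) rank1.le)
  | 2, _ => exact not_aliceWins L (bob_of ok2 4 (by norm_num) rank2.le)
  | 3, _ => exact not_aliceWins L (bob_of ok3 6 (by norm_num) rank3.le)
  | 4, _ => exact not_aliceWins L (bob_of ok4 16 (by norm_num) rank4.le)

/-- For the graph `L` consisting of a triangle and a pendant path of length two, the eternal game
chromatic number is `5` and `r(L, 4) = 4`: with four colours Bob can force a win during the first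
four rounds, but not during the first three. -/
theorem result : eternalChi L = 5 ∧ rounds L 4 = 4 := by
  constructor
  · apply le_antisymm
    · exact Nat.sInf_le alice5
    · apply le_csInf ⟨5, alice5⟩
      intro k hk
      by_contra hlt
      push Not at hlt
      exact not_alice k hlt hk
  · have h4 : 4 ∈ {r | BobWinsIn L (r * Fintype.card (Fin 5)) (start (Fin 5) 4)} := by
      show BobWinsIn L (4 * Fintype.card (Fin 5)) (start (Fin 5) 4)
      rw [Fintype.card_fin]
      exact bob_of ok4 20 (by norm_num) (rank4.le.trans (by norm_num))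
    apply le_antisymm (Nat.sInf_le h4)
    apply le_csInf ⟨4, h4⟩
    intro r hr
    have h := lower Lolly.nb L adj_iff vs5 mem_vs5 (List.finRange 4) List.mem_finRange
      (rankT Lolly.TA4 Lolly.TB4) (Cons L) (fun p hp v hv d hd => cons_next L p hp v hv d hd) ok4
      _ _ (cons_start L) hr
    rw [rank4, Fintype.card_fin] at h
    omega

end Pool.Agent.Results.MP_16080b_co.FourRounds
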